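import Mathlib
import Pool.Agent.Osc.Final

/-!
# Unboundedness above for the class of a is unboundedness below for the class of its inverse
-/

open Filter Pool.Agent.Osc

namespace Pool.Agent.Results.MP_00df96_nt.ReflectionPrinciple

/-- Under GRH for modulus `q`, for every real weight `c` on the classes coprime to `q`, the sum
of `c a * E(x;q,a)` is unbounded above if and only if the sum of `c a * E(x;q,a⁻¹)` is unbounded
below. -/
theorem result (q : ℕ) [NeZero q] (hG : GRH q) (c : (ZMod q)ˣ → ℝ) :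
    (∀ C : ℝ, ∃ᶠ x : ℝ in atTop, C < ∑ a : (ZMod q)ˣ, c a * errAP q (a : ZMod q) x) ↔
    (∀ C : ℝ, ∃ᶠ x : ℝ in atTop,
      ∑ a : (ZMod q)ˣ, c a * errAP q ((a⁻¹ : (ZMod q)ˣ) : ZMod q) x < C) :=
  reflection hG c

end Pool.Agent.Results.MP_00df96_nt.ReflectionPrinciple
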