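import Mathlib
import Pool.Agent.Osc.Final

/-!
# Unbounded oscillation of weighted errors, with nonzero weight at the class of 1
-/

open Filter Pool.Agent.Osc

namespace Pool.Agent.Results.MP_00df96_nt.WeightedOscillation

/-- Under GRH for modulus `q`, for every real weight `c` on the classes coprime to `q` with
`c 1 ≠ 0`, the sum of `c a * E(x;q,a)` over these classes is unbounded above and below. -/
theorem result (q : ℕ) [NeZero q] (hG : GRH q) (c : (ZMod q)ˣ → ℝ) (hc : c 1 ≠ 0) :
    (∀ C : ℝ, ∃ᶠ x : ℝ in atTop, C < ∑ a : (ZMod q)ˣ, c a * errAP q (a : ZMod q) x) ∧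
    (∀ C : ℝ, ∃ᶠ x : ℝ in atTop, ∑ a : (ZMod q)ˣ, c a * errAP q (a : ZMod q) x < C) :=
  unbounded_both hG c hc

end Pool.Agent.Results.MP_00df96_nt.WeightedOscillation
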